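import Pool.Agent.H559R3.UMain
import Pool.Agent.H609R2.NPClosure
import Pool.Agent.H611R2.RawNP
import Pool.Agent.H559R3.NPolyTime

/-!
# Circuits which are described by one round of parallel queries to an `NP` language
-/

namespace Pool.Agent.H670NU

open Pool.Agent.NPC Pool.Agent.NPC.H559U

/-! ### Counting -/

theorem filter_le : ∀ (b c : List Bool), b.length = c.length →
    (∀ j, b.getD j false = true → c.getD j false = true) →
    (b.filter fun x => x).length ≤ (c.filter fun x => x).length
  | [], [], _, _ => le_rfl
  | [], _ :: _, h, _ => by simp at h
  | _ :: _, [], h, _ => by simp at h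
  | x :: b, y :: c, h, hj => by
    have h1 := filter_le b c (by simpa using h) (fun j hb => by simpa using hj (j + 1) (by simpa using hb))
    have h2 := hj 0
    simp only [List.getD_cons_zero] at h2
    cases x <;> cases y <;> simp at h2 ⊢ <;> omega

theorem eq_of_filter : ∀ (b c : List Bool), b.length = c.length →
    (∀ j, b.getD j false = true → c.getD j false = true) →
    (b.filter fun x => x).length = (c.filter fun x => x).length → b = c
  | [], [], _, _, _ => rfl
  | [], _ :: _, h, _, _ => by simp at h
  | _ :: _, [], h, _, _ => by simp at h
  | x :: b, y :: c, h, hj, hc => by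
    have h0 : b.length = c.length := by simpa using h
    have h3 : ∀ j, b.getD j false = true → c.getD j false = true :=
      fun j hb => by simpa using hj (j + 1) (by simpa using hb)
    have h1 := filter_le b c h0 h3
    have h2 := hj 0
    simp only [List.getD_cons_zero] at h2
    have h4 : x = y ∧ (b.filter fun x => x).length = (c.filter fun x => x).length := by
      cases x <;> cases y <;> simp at h2 hc ⊢ <;> omega
    rw [h4.1, eq_of_filter b c h0 h3 h4.2]

/-! ### The verifier -/

/-- The list of the queries. -/
def queries (q : List Bool → List Bool) (A : List Unit × ℕ × List Bool) : Option (List (List Bool)) :=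
  unbits (List (List Bool)) (q (bits (A.1, (unpair A.2.2).2)))

/-- The test of a certificate: a list of answers, with certificates for the positive ones. -/
def test (g : List Bool × List Bool → Bool) (p : Polynomial ℕ) (e : List Bool → List Bool)
    (A : List Unit × ℕ × List Bool) (qs : List (List Bool)) (cs : List (Bool × List Bool)) : Bool :=
  (decide (cs.length = qs.length) &&
    decide ((cs.filter fun c => c.1).length = valB (unpair A.2.2).1)) &&
  ((List.range qs.length).all (fun j => !(cs.getD j (false, [])).1 ||
    (decide ((cs.getD j (false, [])).2.length ≤ p.eval (qs.getD j []).length) &&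
      g (qs.getD j [], (cs.getD j (false, [])).2))) &&
  (e (bits (A.1, (unpair A.2.2).2, cs.map fun c => c.1))).getD A.2.1 false)

/-- The verifier. -/
def ver (g : List Bool × List Bool → Bool) (p : Polynomial ℕ) (q e : List Bool → List Bool)
    (z : List Bool × List Bool) : Bool :=
  (unbits (List Unit × ℕ × List Bool) z.1).elim false fun A =>
    (queries q A).elim false fun qs =>
      (unbits (List (Bool × List Bool)) z.2).elim false fun cs => test g p e A qs cs

theorem poly_bits {α : Type} [TEnc α] {β : Type} [TEnc β] {f : β → α} (hf : Poly f) :
    Poly (fun a => bits (f a)) := by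
  have h1 : PC (bits : β → List Bool) (bits : List Bool → List Bool) (fun b => bits (f b)) := by
    refine (PC.comp (g := fun x : List Bool => x) (f := fun b => bits (f b)) (eb := fun x => x)
      PC.rawIn ?_)
    exact hf
  exact h1

theorem poly_unpair' {α : Type} [TEnc α] {f : α → List Bool} (hf : Poly f) :
    Poly (fun a => unpair (f a)) := poly_unpair.comp hf

theorem poly_unbits' {α β : Type} [TEnc α] [TEnc β] [TDec β] {f : α → List Bool} (hf : Poly f) :
    Poly (fun a => unbits β (f a)) := poly_unbits.comp hf

theorem poly_valB' {α : Type} [TEnc α] {f : α → List Bool} (hf : Poly f) :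
    Poly (fun a => valB (f a)) := Poly.valBits hf

attribute [local fun_prop] poly_bits poly_unpair' poly_unbits' poly_valB'
attribute [local irreducible] unpair unbits valB bits

theorem poly_queries {q : List Bool → List Bool} (hq : Poly q) : Poly (queries q) := by
  unfold queries
  have h1 : Poly (fun A : List Unit × ℕ × List Bool => q (bits (A.1, (unpair A.2.2).2))) :=
    hq.comp (by fun_prop)
  exact poly_unbits' h1

theorem poly_test {g : List Bool × List Bool → Bool} (hg : Poly g) (p : Polynomial ℕ)
    {e : List Bool → List Bool} (he : Poly e) :
    Poly (fun y : (List Unit × ℕ × List Bool) × List (List Bool) × List (Bool × List Bool) =>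
      test g p e y.1 y.2.1 y.2.2) := by
  unfold test
  refine Poly.and (by fun_prop) (Poly.and ?_ ?_)
  · refine Poly.all (p := fun (y : (List Unit × ℕ × List Bool) × List (List Bool) ×
      List (Bool × List Bool)) j => !(y.2.2.getD j (false, [])).1 ||
      (decide ((y.2.2.getD j (false, [])).2.length ≤ p.eval (y.2.1.getD j []).length) &&
      g (y.2.1.getD j [], (y.2.2.getD j (false, [])).2))) (UPoly.range (UPoly.length (by fun_prop))) ?_
    have h1 : Poly (fun z : ((List Unit × ℕ × List Bool) × List (List Bool) ×
      List (Bool × List Bool)) × ℕ => z.1.2.2.getD z.2 (false, [])) := by fun_prop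
    have h2 : Poly (fun z : ((List Unit × ℕ × List Bool) × List (List Bool) ×
      List (Bool × List Bool)) × ℕ => z.1.2.1.getD z.2 []) := by fun_prop
    refine Poly.or (Poly.not (Poly.fst h1)) (Poly.and ?_ (hg.comp (Poly.pair h2 (Poly.snd h1))))
    exact Poly.decide_le (Poly.length (Poly.snd h1)) ((UPoly.length h2).eval p).toPoly
  · refine Poly.getD (he.comp ?_) (by fun_prop) (NPC.Poly.const _)
    fun_prop

theorem poly_ver {g : List Bool × List Bool → Bool} (hg : Poly g) (p : Polynomial ℕ)
    {q e : List Bool → List Bool} (hq : Poly q) (he : Poly e) : Poly (ver g p q e) := by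
  unfold ver
  refine NPC.Poly.optElim (h := fun (z : List Bool × List Bool) A => (queries q A).elim false fun qs =>
      (unbits (List (Bool × List Bool)) z.2).elim false fun cs => test g p e A qs cs)
      (by fun_prop) (NPC.Poly.const _) ?_
  refine NPC.Poly.optElim (α := (List Bool × List Bool) × List Unit × ℕ × List Bool)
    (o := fun y => queries q y.2) (h := fun y qs =>
      (unbits (List (Bool × List Bool)) y.1.2).elim false fun cs => test g p e y.2 qs cs)
      ((poly_queries hq).comp (NPC.Poly.snd NPC.Poly.id)) (NPC.Poly.const _) ?_
  refine NPC.Poly.optElim (α := ((List Bool × List Bool) × List Unit × ℕ × List Bool) × List (List Bool))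
    (o := fun y => unbits (List (Bool × List Bool)) y.1.1.2)
    (h := fun y cs => test g p e y.1.2 y.2 cs) (by fun_prop) (NPC.Poly.const _) ?_
  exact (poly_test hg p he).comp (f := fun y : (((List Bool × List Bool) × List Unit × ℕ × List Bool) ×
    List (List Bool)) × List (Bool × List Bool) => (y.1.1.2, y.1.2, y.2)) (by fun_prop)

/-! ### The language which answers with the help of the number of positive answers -/

/-- The language of the bits of the descriptions, with the number of positive answers as a part of
the advice. -/
def census (g : List Bool × List Bool → Bool) (p : Polynomial ℕ) (q e : List Bool → List Bool)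
    (P : Polynomial ℕ) : Set (List Bool) :=
  {x | ∃ w : List Bool, w.length ≤ P.eval x.length ∧ ver g p q e (x, w) = true}

theorem inNP_census {g : List Bool × List Bool → Bool} (hg : NPC.Poly g) (p : Polynomial ℕ)
    {q e : List Bool → List Bool} (hq : NPC.Poly q) (he : NPC.Poly e) (P : Polynomial ℕ) :
    InNP (census g p q e P) :=
  H611R2.inNP_of_poly (ver g p q e) (poly_ver hg p hq he) P fun _ => Iff.rfl

/-- The number of positive answers. -/
def cnt (ans : List Bool) : ℕ := (ans.filter fun x => x).length

theorem getD_map_fst (cs : List (Bool × List Bool)) (j : ℕ) :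
    (cs.map fun c => c.1).getD j false = (cs.getD j (false, [])).1 := by
  rw [List.getD_eq_getElem?_getD, List.getD_eq_getElem?_getD, List.getElem?_map]
  cases cs[j]? <;> rfl

theorem cnt_map_fst (cs : List (Bool × List Bool)) :
    cnt (cs.map fun c => c.1) = (cs.filter fun c => c.1).length := by
  unfold cnt
  rw [List.filter_map, List.length_map]
  rfl

/-- The exponents of the length of a certificate. -/
noncomputable def certBound (p r : Polynomial ℕ) : Polynomial ℕ :=
  ((Polynomial.X * (Polynomial.C 4 * p + Polynomial.C 10) + Polynomial.C 1).comp r).comp
    (Polynomial.C 4 * Polynomial.X + Polynomial.C 1)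

theorem mem_census {O : Set (List Bool)} {g : List Bool × List Bool → Bool} {p : Polynomial ℕ}
    (hO : ∀ x, x ∈ O ↔ ∃ w : List Bool, w.length ≤ p.eval x.length ∧ g (x, w) = true)
    {q : List Bool → List Bool} (hq : NPC.Poly q) (e : List Bool → List Bool) :
    ∃ P : Polynomial ℕ, ∀ (u : List Unit) (i : ℕ) (α : List Bool) (qs : List (List Bool))
      (ans : List Bool), q (bits (u, α)) = bits qs →
      List.Forall₂ (fun b x => (b = true ↔ x ∈ O)) ans qs →
      (bits (u, i, pairBits (cnt ans).bits α) ∈ census g p q e P ↔
        (e (bits (u, α, ans))).getD i false = true) := by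
  classical
  have hQ : NPC.Poly (fun x : List Bool => (unbits (List Unit × ℕ × List Bool) x).elim none
      fun A => queries q A) :=
    NPC.Poly.optElim poly_unbits (NPC.Poly.const _) ((poly_queries hq).comp (NPC.Poly.snd NPC.Poly.id))
  obtain ⟨r, hr⟩ := hQ.sz_le
  refine ⟨certBound p r, fun u i α qs ans hqs hans => ?_⟩
  have hAns : ans = qs.map fun x => decide (x ∈ O) := by
    clear hqs
    induction hans with
    | nil => rfl
    | cons h _ ih =>
      rw [List.map_cons, ← ih]
      congr 1
      rw [Bool.eq_iff_iff]
      simpa using h
  have hqq : queries q (u, i, pairBits (cnt ans).bits α) = some qs := by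
    unfold queries
    simp only [unpair_pairBits, hqs, unbits_bits]
  have hO2 : ∀ j, (qs.map fun x => decide (x ∈ O)).getD j false = true ↔
      j < qs.length ∧ qs.getD j [] ∈ O := by
    intro j
    rw [List.getD_eq_getElem?_getD, List.getElem?_map, List.getD_eq_getElem?_getD]
    by_cases hj : j < qs.length
    · simp [hj]
    · simp [hj]
  unfold census ver
  simp only [Set.mem_ofPred_eq, unbits_bits, Option.elim_some, hqq]
  constructor
  · rintro ⟨w, _, h⟩
    cases hw : unbits (List (Bool × List Bool)) w with
    | none => rw [hw] at h; simp at h
    | some cs =>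
      rw [hw] at h
      simp only [Option.elim_some, test, Bool.and_eq_true, decide_eq_true_eq, unpair_pairBits,
        valB_bits, List.all_eq_true, List.mem_range, Bool.or_eq_true, Bool.not_eq_true'] at h
      obtain ⟨⟨h1, h2⟩, h3, h4⟩ := h
      have h5 : (cs.map fun c => c.1) = ans := by
        rw [hAns]
        refine eq_of_filter _ _ (by simpa using h1) (fun j hj => ?_) ?_
        · rw [hO2]
          have hj' := hj
          rw [getD_map_fst] at hj
          have hjl : j < qs.length := by
            by_contra hcon
            rw [List.getD_eq_default _ _ (by simpa [h1] using hcon)] at hj'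
            exact Bool.false_ne_true hj'
          refine ⟨hjl, ?_⟩
          rw [hO]
          rcases h3 j hjl with h6 | h6
          · rw [hj] at h6; simp at h6
          · exact ⟨_, h6⟩
        · have h6 := cnt_map_fst cs
          rw [h2, hAns] at h6
          exact h6
      rw [h5] at h4
      exact h4
  · intro h
    have hwit : ∀ x : List Bool, ∃ w : List Bool, w.length ≤ p.eval x.length ∧
        (x ∈ O → g (x, w) = true) := by
      intro x
      by_cases hx : x ∈ O
      · obtain ⟨w, hw, hg⟩ := (hO x).1 hx
        exact ⟨w, hw, fun _ => hg⟩
      · exact ⟨[], by simp, fun h => absurd h hx⟩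
    choose wit hwit1 hwit2 using hwit
    set cs : List (Bool × List Bool) := qs.map fun x => (decide (x ∈ O), wit x) with hcs
    have hlen : cs.length = qs.length := by simp [hcs]
    have hfst : (cs.map fun c => c.1) = ans := by
      rw [hcs, hAns, List.map_map]
      rfl
    refine ⟨bits cs, ?_, ?_⟩
    · -- the length of the certificate
      have h1 := hr (bits (u, i, pairBits (cnt ans).bits α))
      rw [unbits_bits, Option.elim_some, hqq] at h1
      have h2 := sz_listBool_le (bits (u, i, pairBits (cnt ans).bits α))
      have h3 := h1.trans (eval_mono r h2)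
      have h4 : sz qs ≤ sz (some qs) := by
        simp
      set B := r.eval (4 * (bits (u, i, pairBits (cnt ans).bits α)).length + 1) with hB
      have h5 : sz qs ≤ B := h4.trans h3
      rw [bits_length]
      have h6 : sz cs ≤ cs.length * (4 * p.eval B + 10) + 1 := by
        refine sz_le_length_mul cs (4 * p.eval B + 9) (fun c hc => ?_) |>.trans ?_
        · rw [hcs, List.mem_map] at hc
          obtain ⟨x, hx, rfl⟩ := hc
          rw [sz_pair]
          have e1 := sz_bool_le (decide (x ∈ O))
          have e2 := sz_listBool_le (wit x)
          have e3 := hwit1 x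
          have e4 : x.length ≤ B := by
            have := length_lt_sz x
            have := sz_le_of_mem hx
            omega
          have e5 := eval_mono p e4
          omega
        · have : cs.length * (4 * p.eval B + 9 + 1) = cs.length * (4 * p.eval B + 10) := by ring
          omega
      have h7 : cs.length ≤ B := by
        have := length_lt_sz qs
        omega
      unfold certBound
      rw [Polynomial.eval_comp, Polynomial.eval_comp]
      simp only [Polynomial.eval_add, Polynomial.eval_mul, Polynomial.eval_C, Polynomial.eval_X]
      rw [← hB]
      exact h6.trans (Nat.add_le_add_right (Nat.mul_le_mul_right _ h7) _)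
    · rw [unbits_bits]
      simp only [Option.elim_some, test, Bool.and_eq_true, decide_eq_true_eq, unpair_pairBits,
        valB_bits, List.all_eq_true, List.mem_range, Bool.or_eq_true, Bool.not_eq_true']
      refine ⟨⟨hlen, ?_⟩, fun j hj => ?_, by rw [hfst]; exact h⟩
      · rw [← cnt_map_fst, hfst]
      · have e1 : cs.getD j (false, []) = (decide (qs.getD j [] ∈ O), wit (qs.getD j [])) := by
          rw [hcs, List.getD_eq_getElem?_getD, List.getElem?_map, List.getD_eq_getElem?_getD]
          simp [hj]
        rw [e1]
        by_cases hx : qs.getD j [] ∈ O
        · right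
          exact ⟨hwit1 _, hwit2 _ hx⟩
        · left
          simpa using hx

end Pool.Agent.H670NU
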