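import Pool.Agent.H670NU.Defs
import Pool.Agent.H670NU.Par

/-!
# Lower bounds against circuits described by parallel `NP` queries and near-linear advice
-/

namespace Pool.Agent.H670NU

open Pool.Agent.NPC Pool.Agent.NPC.H559U Filter

theorem mono_uniform {𝒞 : Set (Set (List Bool))} {a a' s s' : ℕ → ℕ} {L : Set (List Bool)}
    (ha : ∀ᶠ n in atTop, a n ≤ a' n) (hs : ∀ᶠ n in atTop, s n ≤ s' n)
    (h : HasUniformCircuits 𝒞 a s L) : HasUniformCircuits 𝒞 a' s' L := by
  obtain ⟨W, hW, n₀, h⟩ := h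
  obtain ⟨N, hN⟩ := eventually_atTop.1 (ha.and hs)
  refine ⟨W, hW, max n₀ N, fun n hn => ?_⟩
  obtain ⟨C, α, h1, h2, h3, h4⟩ := h n ((le_max_left _ _).trans hn)
  obtain ⟨h5, h6⟩ := hN n ((le_max_right _ _).trans hn)
  exact ⟨C, α, h1.trans h6, h2, h3.trans h5, h4⟩

theorem sigma_large {σ : ℕ → ℕ} {t : ℕ} (hσ1 : ∀ᶠ n in atTop, Nat.log 2 n ≤ σ n ^ t) (K : ℕ) :
    ∀ᶠ n in atTop, K ≤ σ n := by
  filter_upwards [hσ1, eventually_ge_atTop (2 ^ (K ^ t + 1))] with n h1 h2
  by_contra h3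
  have h4 : σ n ^ t ≤ K ^ t := Nat.pow_le_pow_left (by omega) t
  have h5 : K ^ t + 1 ≤ Nat.log 2 n := Nat.le_log_of_pow_le (by norm_num) h2
  omega

theorem pow_le_two_pow (K e : ℕ) : ∀ᶠ l : ℕ in atTop, (K * (l + 1)) ^ e ≤ 2 ^ l := by
  have h1 := tendsto_pow_const_div_const_pow_of_one_lt e (show (1 : ℝ) < 2 by norm_num)
  have h2 : ∀ᶠ l : ℕ in atTop, (l : ℝ) ^ e / 2 ^ l < 1 / ((2 * K : ℕ) ^ e + 1 : ℝ) :=
    h1.eventually_lt_const (by positivity)
  filter_upwards [h2, eventually_ge_atTop 1] with l h3 h4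
  have h5 : (K * (l + 1)) ^ e ≤ (2 * K) ^ e * l ^ e := by
    rw [← mul_pow]
    refine Nat.pow_le_pow_left ?_ e
    nlinarith
  have h6 : ((2 * K : ℕ) : ℝ) ^ e * (l : ℝ) ^ e ≤ 2 ^ l := by
    rw [div_lt_div_iff₀ (by positivity) (by positivity)] at h3
    have h7 : (0 : ℝ) ≤ (l : ℝ) ^ e := by positivity
    nlinarith
  have h7 : (((2 * K) ^ e * l ^ e : ℕ) : ℝ) ≤ ((2 ^ l : ℕ) : ℝ) := by
    push_cast
    push_cast at h6
    exact h6
  exact h5.trans (by exact_mod_cast h7)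

theorem log_pow_le (K e : ℕ) : ∀ᶠ n : ℕ in atTop, (K * (Nat.log 2 n + 1)) ^ e ≤ n := by
  have h1 : Tendsto (Nat.log 2) atTop atTop := by
    refine tendsto_atTop.2 fun b => ?_
    filter_upwards [eventually_ge_atTop (2 ^ b)] with n hn
    exact Nat.le_log_of_pow_le (by norm_num) hn
  filter_upwards [h1.eventually (pow_le_two_pow K e), eventually_ge_atTop 1] with n h2 h3
  exact h2.trans (Nat.pow_log_le_self 2 (by omega))

/-- The general theorem, with a language which does not depend on the advice. -/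
theorem general (𝒞 : Set (Set (List Bool))) (hP : ∀ L, InP L → L ∈ 𝒞)
    (hR : ∀ L L', Reduces L L' → L' ∈ 𝒞 → L ∈ 𝒞) (σ : ℕ → ℕ) (hσ : Monotone σ) (t e : ℕ)
    (hσ1 : ∀ᶠ n in atTop, Nat.log 2 n ≤ σ n ^ t)
    (hσ2 : ∀ᶠ n in atTop, σ n ^ e * n ≤ n ^ e) (k : ℕ) :
    ∃ L ∈ 𝒞, ∀ a : ℕ → ℕ, (∀ᶠ n in atTop, a n * σ n ≤ n) → ∀ c,
      ¬ HasUniformCircuits 𝒞 a (fun n => c * (n * σ n ^ k)) L := by
  obtain ⟨L, hL, h⟩ := main 𝒞 hP hR σ hσ t e hσ1 hσ2 (fun n => n / σ n)
    (Eventually.of_forall fun n => Nat.div_mul_le_self _ _) k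
  refine ⟨L, hL, fun a ha c hc => h c (mono_uniform ?_ (Eventually.of_forall fun _ => le_rfl) hc)⟩
  filter_upwards [ha, sigma_large hσ1 1] with n h3 h7
  exact (Nat.le_div_iff_mul_le h7).2 h3

theorem eval_le_pow (r : Polynomial ℕ) : ∃ M : ℕ, ∀ n : ℕ, 2 ≤ n → r.eval n ≤ n ^ M := by
  induction r using Polynomial.induction_on' with
  | add p q hp hq =>
    obtain ⟨M, hM⟩ := hp
    obtain ⟨M', hM'⟩ := hq
    refine ⟨M + M' + 1, fun n hn => ?_⟩
    rw [Polynomial.eval_add]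
    have h1 := (hM n hn).trans (Nat.pow_le_pow_right (show 0 < n by omega) (show M ≤ M + M' by omega))
    have h2 := (hM' n hn).trans (Nat.pow_le_pow_right (show 0 < n by omega) (show M' ≤ M + M' by omega))
    rw [pow_succ]
    nlinarith
  | monomial k a =>
    refine ⟨a + k, fun n hn => ?_⟩
    rw [Polynomial.eval_monomial, pow_add]
    refine Nat.mul_le_mul_right _ ?_
    exact (Nat.lt_two_pow_self).le.trans (Nat.pow_le_pow_left hn a)

theorem length_of_forall₂ {R : Bool → List Bool → Prop} {ans : List Bool} {qs : List (List Bool)}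
    (h : List.Forall₂ R ans qs) : ans.length = qs.length := h.length_eq

theorem main_par (σ : ℕ → ℕ) (hσ : Monotone σ) (t e : ℕ)
    (hσ1 : ∀ᶠ n in atTop, Nat.log 2 n ≤ σ n ^ t)
    (hσ2 : ∀ᶠ n in atTop, σ n ^ e * n ≤ n ^ e) (k : ℕ) :
    ∃ L, InNP L ∧ ∀ a : ℕ → ℕ, (∀ᶠ n in atTop, a n * σ n ≤ n) → ∀ c,
      ¬ HasParallelNPCircuits a (fun n => c * (n * σ n ^ k)) L := by
  have he : 1 ≤ e := by
    by_contra hcon
    have he0 : e = 0 := by omega
    subst he0
    obtain ⟨n, h1, h2⟩ := (hσ2.and (eventually_ge_atTop 2)).exists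
    simp at h1
    omega
  obtain ⟨L, hL, hmain⟩ := general {W | InNP W} (fun L hL => hL.inNP)
    (fun L L' h h' => InNP.of_reduces h h') (fun n => σ n / 2)
    (fun m n hmn => Nat.div_le_div_right (hσ hmn)) (2 * t) e
    (by
      filter_upwards [hσ1, sigma_large hσ1 6] with n h1 h2
      refine h1.trans ?_
      rw [mul_comm 2 t, mul_comm t 2, pow_mul]
      refine Nat.pow_le_pow_left ?_ t
      have h3 : 3 ≤ σ n / 2 := by omega
      have h4 : σ n ≤ 3 * (σ n / 2) := by omega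
      nlinarith)
    (by
      filter_upwards [hσ2] with n h1
      refine le_trans (Nat.mul_le_mul_right _ (Nat.pow_le_pow_left (Nat.div_le_self _ _) e)) h1)
    (2 * k)
  refine ⟨L, hL, fun a ha c hc => ?_⟩
  obtain ⟨O, q, e', hO, hq, he', n₀, h⟩ := hc
  have hq' := poly_of_polyTime hq
  have he'' := poly_of_polyTime he'
  obtain ⟨g, p, hg, hgO⟩ := InNP.exists_poly hO
  obtain ⟨P, hP⟩ := mem_census hgO hq' e'
  obtain ⟨r, hr⟩ := hq'.sz_le
  -- the number of queries is polynomially bounded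
  obtain ⟨M, hM⟩ : ∃ M : ℕ, ∀ n : ℕ, 2 ≤ n → r.eval (4 * (6 * n + 6) + 1) ≤ n ^ M := by
    obtain ⟨M, hM⟩ := eval_le_pow (r.comp (Polynomial.C 4 * (Polynomial.C 6 * Polynomial.X +
      Polynomial.C 6) + Polynomial.C 1))
    refine ⟨M, fun n hn => ?_⟩
    simpa using hM n hn
  set K := 2 * M + 3 with hK
  refine hmain (fun n => a n + K * (Nat.log 2 n + 1)) ?_ c ?_
  · filter_upwards [ha, hσ2, log_pow_le K e] with n h1 h2 h3
    have h4 : K * (Nat.log 2 n + 1) * σ n ≤ n := by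
      refine le_of_pow_le_pow_left₀ (n := e) (by omega) (Nat.zero_le _) ?_
      rw [mul_pow]
      calc (K * (Nat.log 2 n + 1)) ^ e * σ n ^ e ≤ n * σ n ^ e := Nat.mul_le_mul_right _ h3
        _ = σ n ^ e * n := mul_comm _ _
        _ ≤ n ^ e := h2
    have h5 : 2 * (σ n / 2) ≤ σ n := Nat.mul_div_le _ _
    have h6 : 2 * ((a n + K * (Nat.log 2 n + 1)) * (σ n / 2)) ≤ 2 * n := by
      calc 2 * ((a n + K * (Nat.log 2 n + 1)) * (σ n / 2)) =
            (a n + K * (Nat.log 2 n + 1)) * (2 * (σ n / 2)) := by ring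
        _ ≤ (a n + K * (Nat.log 2 n + 1)) * σ n := Nat.mul_le_mul_left _ h5
        _ = a n * σ n + K * (Nat.log 2 n + 1) * σ n := by ring
        _ ≤ 2 * n := by omega
    omega
  · obtain ⟨N, hN⟩ := eventually_atTop.1 (ha.and ((sigma_large hσ1 6).and (eventually_ge_atTop 2)))
    refine ⟨census g p q e' P, inNP_census hg p hq' he'' P, max n₀ N, fun n hn => ?_⟩
    obtain ⟨C, α, qs, ans, h1, h2, h3, h4, h5, h6⟩ := h n ((le_max_left _ _).trans hn)
    obtain ⟨g1, g2, g3⟩ := hN n ((le_max_right _ _).trans hn)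
    refine ⟨C, pairBits (cnt ans).bits α, h1.trans ?_, h2, ?_, fun i hi => ?_⟩
    · refine Nat.mul_le_mul_left _ (Nat.mul_le_mul_left _ ?_)
      rw [pow_mul]
      refine Nat.pow_le_pow_left ?_ k
      have e3 : 3 ≤ σ n / 2 := by omega
      have e4 : σ n ≤ 3 * (σ n / 2) := by omega
      show σ n ≤ (σ n / 2) ^ 2
      nlinarith
    · rw [length_pairBits]
      have e1 : cnt ans ≤ n ^ M := by
        have e2 : cnt ans ≤ ans.length := List.length_filter_le _ _
        have e3 := length_of_forall₂ h5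
        have e4 := length_lt_sz qs
        have e5 := hr (bits (List.replicate n (), α))
        rw [h4] at e5
        have e6 := length_lt_sz (bits qs)
        rw [bits_length] at e6
        have e7 : sz (bits (List.replicate n (), α)) ≤ 4 * (6 * n + 6) + 1 := by
          refine (sz_listBool_le _).trans ?_
          rw [bits_length, sz_pair, sz_replicate_unit]
          have e8 := sz_listBool_le α
          have e9 : a n ≤ n := by
            have : a n * 1 ≤ a n * σ n := Nat.mul_le_mul_left _ (by omega)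
            omega
          omega
        have e8 := e5.trans ((eval_mono r e7).trans (hM n g3))
        omega
      have e2 : (cnt ans).bits.length ≤ M * (Nat.log 2 n + 1) + 1 := by
        rw [Nat.size_eq_bits_len, Nat.size_le]
        have e3 : n < 2 ^ (Nat.log 2 n + 1) := Nat.lt_pow_succ_log_self (by norm_num) n
        calc cnt ans ≤ n ^ M := e1
          _ ≤ (2 ^ (Nat.log 2 n + 1)) ^ M := Nat.pow_le_pow_left e3.le M
          _ = 2 ^ (M * (Nat.log 2 n + 1)) := by rw [← pow_mul, mul_comm]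
          _ < 2 ^ (M * (Nat.log 2 n + 1) + 1) := Nat.pow_lt_pow_right (by norm_num) (by omega)
      have e3 : 2 * (M * (Nat.log 2 n + 1) + 1) + 1 ≤ K * (Nat.log 2 n + 1) := by
        rw [hK]
        nlinarith [Nat.zero_le (Nat.log 2 n)]
      show 2 * (cnt ans).bits.length + α.length + 1 ≤ a n + K * (Nat.log 2 n + 1)
      omega
    · rw [hP (List.replicate n ()) i α qs ans h4 h5, h6, List.getD_eq_getElem _ _ hi]

end Pool.Agent.H670NU
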