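import Pool.Agent.NPC.Dec
import Pool.Agent.H559R3.NDefs

/-!
# Nondeterministic circuits described by one round of parallel queries to an `NP` language
-/

namespace Pool.Agent.H670NU

open Pool.Agent.NPC Pool.Agent.NPC.H559U

/-- For all large `n` there is a nondeterministic circuit of size at most `s n` (guess bits and
gates) that decides `L` on inputs of length `n` and whose description can be computed in
polynomial time (in `n`) with at most `a n` bits of advice and one round of parallel queries to a
language `O` in `NP`: a polynomial-time algorithm `q` computes from `1^n` and the advice `α` the
list `qs` of all the queries, and a polynomial-time algorithm `e` computes from `1^n`, the advice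
and the list `ans` of the answers the whole description of the circuit. The advice depends only on
`n`. -/
def HasParallelNPNCircuits (a s : ℕ → ℕ) (L : Set (List Bool)) : Prop :=
  ∃ (O : Set (List Bool)) (q e : List Bool → List Bool), InNP O ∧ PolyTime q ∧ PolyTime e ∧
    ∃ n₀, ∀ n ≥ n₀, ∃ (C : NCircuit n) (α : List Bool) (qs : List (List Bool)) (ans : List Bool),
      C.size ≤ s n ∧ C.Computes L ∧ α.length ≤ a n ∧
      q (bits (List.replicate n (), α)) = bits qs ∧
      List.Forall₂ (fun b x => (b = true ↔ x ∈ O)) ans qs ∧
      e (bits (List.replicate n (), α, ans)) = C.desc

end Pool.Agent.H670NU
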