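import Pool.Agent.H670NU.Defs
import Pool.Agent.H670NU.Main
import Pool.Agent.H559R3.NMain

/-!
# Nondeterministic circuits with descriptions computed by parallel `NP` queries

The proof follows the starting file `Pool/Agent/H559R3/NMain.lean`, with a pair of `NP` languages
(one for the bits which are zero, one for the bits which are one) in place of one language in
`NP ∩ coNP`; the pair has to be complementary for the right advice only.
-/

namespace Pool.Agent.H670NU

open Pool.Agent.NPC Pool.Agent.NPC.H559U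

/-- For all large `n` there is a nondeterministic circuit of size at most `s n` that decides `L`
on inputs of length `n` and an advice string `α` such that membership of `(1^n, i, α)` in the
`NP` language `W0` (in the `NP` language `W1`) tells whether the `i`-th bit of the description
is zero (one). -/
def HasPairNCircuits (a s : ℕ → ℕ) (L : Set (List Bool)) : Prop :=
  ∃ W0 W1 : Set (List Bool), InNP W0 ∧ InNP W1 ∧ ∃ n₀, ∀ n ≥ n₀,
    ∃ (C : NCircuit n) (α : List Bool), C.size ≤ s n ∧ C.Computes L ∧ α.length ≤ a n ∧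
      ∀ (i : ℕ) (hi : i < C.desc.length),
        (bits (List.replicate n (), i, α) ∈ W0 ↔ C.desc[i] = false) ∧
        (bits (List.replicate n (), i, α) ∈ W1 ↔ C.desc[i] = true)

/-- The next language of the chain. -/
def joinPair (e : ℕ) (W0 W1 : Set (List Bool)) : Set (List Bool) :=
  {x | (tag e x = false ∧ ask e x ∈ W0) ∨ (tag e x = true ∧ ask e x ∈ W1)}ᶜ

theorem inCoNP_joinPair (e : ℕ) {W0 W1 : Set (List Bool)} (h0 : InNP W0) (h1 : InNP W1) :
    InCoNP (joinPair e W0 W1) := by
  have h := inNP_ite h0 h1 (NPC.Poly.not (poly_tag e)) (poly_tag e) (poly_ask e)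
  unfold InCoNP joinPair
  rw [compl_compl]
  have e1 : {x | (tag e x = false ∧ ask e x ∈ W0) ∨ (tag e x = true ∧ ask e x ∈ W1)} =
      {x | ((!tag e x) = true ∧ ask e x ∈ W0) ∨ (tag e x = true ∧ ask e x ∈ W1)} := by
    ext x
    simp only [Set.mem_ofPred_eq, Bool.not_eq_true']
  rw [e1]
  exact h

theorem mem_joinPair {e m n i : ℕ} {al D : List Bool} {W0 W1 : Set (List Bool)}
    (hi : i < D.length)
    (h0 : bits (List.replicate n (), i, al) ∈ W0 ↔ D[i] = false)
    (h1 : bits (List.replicate n (), i, al) ∈ W1 ↔ D[i] = true) (b : Bool)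
    (hq : (query n i (b :: al)).length + 1 ≤ m) (hn : n ≤ m ^ e) :
    pad m (query n i (b :: al)) ∈ joinPair e W0 W1 ↔ D[i] = !b := by
  unfold joinPair tag ask
  rw [Set.mem_compl_iff, Set.mem_ofPred_eq, answer_query _ _ _ _ _ hq hn]
  simp only [List.getD_cons_zero, List.tail_cons, h0, h1]
  cases b <;> cases D[i] <;> simp

theorem levelOK_sound {m n : ℕ} {al D F D' : List Bool} {ws : List (List Bool)}
    {J : Set (List Bool)}
    (hF : ∀ y : List Bool, y.length = m → ((∃ w, evalN F y w = true) ↔ y ∈ J))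
    (hJ : ∀ (i : ℕ) (hi : i < D.length) (b : Bool),
      (pad m (query n i (b :: al)) ∈ J ↔ D[i] = !b))
    (hq : ∀ i < D.length, ∀ b, (query n i (b :: al)).length + 1 ≤ m)
    (h : levelOK (List.replicate m (), n, D.length, al) D' F ws = true) : D' = D := by
  unfold levelOK at h
  simp only [Bool.and_eq_true, decide_eq_true_eq, List.all_eq_true, List.mem_range] at h
  obtain ⟨h1, h2⟩ := h
  apply List.ext_getElem h1
  intro i hi1 hi2
  have h3 := h2 i hi1
  unfold bitOK at h3
  simp only [List.length_replicate] at h3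
  have h4 := (hF _ (length_pad (hq i hi2 _))).1 ⟨_, h3⟩
  rw [hJ i hi2] at h4
  rw [h4, Bool.not_not, List.getD_eq_getElem _ _ hi1]

theorem levelOK_complete {m n G : ℕ} {al D F : List Bool} {J : Set (List Bool)}
    (hF : ∀ y : List Bool, y.length = m → ((∃ w, evalN F y w = true) ↔ y ∈ J))
    (hG : ∀ y w, evalN F y w = true → w.length ≤ G)
    (hJ : ∀ (i : ℕ) (hi : i < D.length) (b : Bool),
      (pad m (query n i (b :: al)) ∈ J ↔ D[i] = !b))
    (hq : ∀ i < D.length, ∀ b, (query n i (b :: al)).length + 1 ≤ m) :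
    ∃ ws : List (List Bool), ws.length = D.length ∧ (∀ w ∈ ws, w.length ≤ G) ∧
      levelOK (List.replicate m (), n, D.length, al) D F ws = true := by
  have h1 : ∀ i, ∃ w : List Bool, i < D.length →
      evalN F (pad m (query n i ((!(D.getD i false)) :: al))) w = true := by
    intro i
    by_cases hi : i < D.length
    · have h2 := (hF _ (length_pad (hq i hi (!(D.getD i false))))).2 (by
        rw [hJ i hi, Bool.not_not,
          List.getD_eq_getElem _ _ hi])
      obtain ⟨w, hw⟩ := h2
      exact ⟨w, fun _ => hw⟩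
    · exact ⟨[], fun h => absurd h hi⟩
  choose w hw using h1
  refine ⟨(List.range D.length).map w, by simp, ?_, ?_⟩
  · intro x hx
    obtain ⟨i, hi, rfl⟩ := List.mem_map.1 hx
    exact hG _ _ (hw i (List.mem_range.1 hi))
  · unfold levelOK
    simp only [decide_true, Bool.true_and, List.all_eq_true, List.mem_range]
    intro i hi
    unfold bitOK
    simp only [List.length_replicate]
    have h3 : ((List.range D.length).map w).getD i [] = w i := by
      rw [List.getD_eq_getElem _ _ (by simpa using hi)]
      simp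
    rw [h3]
    exact hw i hi

theorem contraN (q r M G : ℕ) (n : ℕ → ℕ) (L : ℕ → Set (List Bool)) (D al : ℕ → List Bool)
    (hL0 : L 0 = diagN q)
    (hD : ∀ j ≤ r, ∀ y : List Bool, y.length = n j →
      ((∃ w, evalN (D j) y w = true) ↔ y ∈ L j))
    (hG : ∀ j ≤ r, ∀ y w, evalN (D j) y w = true → w.length ≤ G)
    (hJ : ∀ j < r, ∀ (i : ℕ) (hi : i < (D j).length) (b : Bool),
      (pad (n (j + 1)) (query (n j) i (b :: al j)) ∈ L (j + 1) ↔ (D j)[i] = !b))
    (hM : ∀ j ≤ r, (D j).length ≤ M)
    (hq : ∀ j < r, ∀ i < (D j).length, ∀ b,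
      (query (n j) i (b :: al j)).length + 1 ≤ n (j + 1))
    (hsz : sz ((List.range r).map (entry n D al), D r) + 1 ≤ n 0)
    (hcert : 20 * ((r + 1) * ((M + 1) * (G + 1))) ≤ n 0 ^ q) : False := by
  set A : List Entry × List Bool := ((List.range r).map (entry n D al), D r) with hA
  have hA1 : A.1.length = r := by simp [hA]
  have hA2 : A.2 = D r := rfl
  have hAj : ∀ j < r, A.1.getD j ([], 0, 0, []) = entry n D al j := by
    intro j hj
    rw [List.getD_eq_getElem _ _ (by omega)]
    simp [hA]
  have hx : (pad (n 0) (bits A)).length = n 0 := length_pad (by rw [bits_length]; exact hsz)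
  -- soundness
  have sound : ∀ w, verifier (pad (n 0) (bits A), w) = true →
      ∃ v, evalN (D 0) (pad (n 0) (bits A)) v = true := by
    intro w hw
    unfold verifier at hw
    simp only [unpad_pad, unbits_bits, Option.elim_some] at hw
    cases hc : unbits Cert w with
    | none => rw [hc] at hw; simp at hw
    | some c =>
      rw [hc] at hw
      simp only [Option.elim_some] at hw
      unfold verify at hw
      simp only [Bool.and_eq_true, decide_eq_true_eq, List.all_eq_true, List.mem_range, hA1,
        hA2] at hw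
      obtain ⟨⟨h1, h2⟩, h3⟩ := hw
      have key : ∀ m ≤ r, c.1.1.getD (r - m) [] = D (r - m) := by
        intro m
        induction m with
        | zero => intro _; exact h1
        | succ m ih =>
          intro hm
          have h4 := h2 (r - (m + 1)) (by omega)
          have h5 := ih (by omega)
          have e1 : r - (m + 1) + 1 = r - m := by omega
          rw [hAj _ (by omega), e1, h5] at h4
          have h6 : r - (m + 1) < r := by omega
          refine levelOK_sound (m := n (r - m)) (n := n (r - (m + 1)))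
            (al := al (r - (m + 1))) (F := D (r - m)) (J := L (r - m)) ?_ ?_ ?_
            (ws := c.1.2.getD (r - (m + 1)) []) ?_
          · intro y hy
            exact hD _ (by omega) y hy
          · intro i hi b
            have := hJ _ h6 i hi b
            rwa [e1] at this
          · intro i hi b
            have := hq _ h6 i hi b
            rwa [e1] at this
          · unfold entry at h4
            rw [e1] at h4
            exact h4
      have h7 := key r le_rfl
      rw [Nat.sub_self] at h7
      rw [h7] at h3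
      exact ⟨_, h3⟩
  -- completeness
  have compl : (∃ v, evalN (D 0) (pad (n 0) (bits A)) v = true) →
      ∃ w : List Bool, w.length ≤ (pad (n 0) (bits A)).length ^ q ∧
        verifier (pad (n 0) (bits A), w) = true := by
    rintro ⟨v, hv⟩
    have h1 : ∀ j, ∃ ws : List (List Bool), j < r → ws.length = (D j).length ∧
        (∀ w ∈ ws, w.length ≤ G) ∧ levelOK (entry n D al j) (D j) (D (j + 1)) ws = true := by
      intro j
      by_cases hj : j < r
      · obtain ⟨ws, h⟩ := levelOK_complete (m := n (j + 1)) (n := n j) (al := al j)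
          (D := D j) (F := D (j + 1)) (J := L (j + 1)) (G := G)
          (fun y hy => hD _ hj y hy) (hG _ hj) (hJ _ hj) (hq _ hj)
        exact ⟨ws, fun _ => h⟩
      · exact ⟨[], fun h => absurd h hj⟩
    choose ws hws using h1
    set c : Cert := (((List.range (r + 1)).map D, (List.range r).map ws), v) with hc
    refine ⟨bits c, ?_, ?_⟩
    · rw [hx, bits_length]
      refine le_trans ?_ hcert
      have g1 : sz ((List.range (r + 1)).map D) ≤ (r + 1) * (4 * M + 2) + 1 := by
        have := sz_le_length_mul ((List.range (r + 1)).map D) (4 * M + 1) (by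
          intro x hx
          obtain ⟨j, hj, rfl⟩ := List.mem_map.1 hx
          have := sz_listBool_le (D j)
          have := hM j (by have := List.mem_range.1 hj; omega)
          omega)
        simpa using this
      have g2 : sz ((List.range r).map ws) ≤ r * (M * (4 * G + 2) + 2) + 1 := by
        have := sz_le_length_mul ((List.range r).map ws) (M * (4 * G + 2) + 1) (by
          intro x hx
          obtain ⟨j, hj, rfl⟩ := List.mem_map.1 hx
          obtain ⟨f1, f2, -⟩ := hws j (List.mem_range.1 hj)
          have f3 : sz (ws j) ≤ (ws j).length * (4 * G + 2) + 1 :=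
            sz_le_length_mul (ws j) (4 * G + 1) (by
              intro w hw
              have := sz_listBool_le w
              have := f2 w hw
              omega)
          rw [f1] at f3
          have f4 : (D j).length * (4 * G + 2) ≤ M * (4 * G + 2) :=
            Nat.mul_le_mul_right _ (hM j (by have := List.mem_range.1 hj; omega))
          omega)
        simpa using this
      have g3 : sz v ≤ 4 * G + 1 := by
        have := sz_listBool_le v
        have := hG 0 (Nat.zero_le _) _ _ hv
        omega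
      rw [hc]
      simp only [sz_pair]
      nlinarith [Nat.zero_le (r * M * G), Nat.zero_le (M * G), Nat.zero_le (r * M),
        Nat.zero_le (r * G)]
    · unfold verifier
      simp only [unpad_pad, unbits_bits, Option.elim_some]
      unfold verify
      simp only [Bool.and_eq_true, decide_eq_true_eq, List.all_eq_true, List.mem_range, hA1, hA2]
      have hDs : ∀ j ≤ r, c.1.1.getD j [] = D j := by
        intro j hj
        rw [List.getD_eq_getElem _ _ (by simp [hc]; omega)]
        simp [hc]
      refine ⟨⟨hDs r le_rfl, fun j hj => ?_⟩, ?_⟩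
      · rw [hAj j hj, hDs j hj.le, hDs (j + 1) hj]
        have h2 : c.1.2.getD j [] = ws j := by
          rw [List.getD_eq_getElem _ _ (by simp [hc]; omega)]
          simp [hc]
        rw [h2]
        exact (hws j hj).2.2
      · rw [hDs 0 (Nat.zero_le _)]
        exact hv
  have h1 := hD 0 (Nat.zero_le _) _ hx
  rw [hL0] at h1
  unfold diagN at h1
  rw [Set.mem_compl_iff, Set.mem_ofPred_eq] at h1
  by_cases h2 : ∃ w, evalN (D 0) (pad (n 0) (bits A)) w = true
  · exact h1.1 h2 (compl h2)
  · refine h2 (h1.2 ?_)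
    rintro ⟨w, -, hw⟩
    exact h2 (sound w hw)

theorem mainN (σ : ℕ → ℕ) (hσ : Monotone σ) (t e : ℕ)
    (hσ1 : ∀ᶠ n in Filter.atTop, Nat.log 2 n ≤ σ n ^ t)
    (hσ2 : ∀ᶠ n in Filter.atTop, σ n ^ e * n ≤ n ^ e)
    (a : ℕ → ℕ) (ha : ∀ᶠ n in Filter.atTop, a n * σ n ≤ n) (k : ℕ) :
    ∃ L, InCoNP L ∧ ∀ c, ¬ HasPairNCircuits a (fun n => c * (n * σ n ^ k)) L := by
  by_contra hcon
  push Not at hcon
  have hall : ∀ L : {L // InCoNP L}, ∃ (c : ℕ)
      (W : {W : Set (List Bool) × Set (List Bool) // InNP W.1 ∧ InNP W.2}) (n₀ : ℕ), ∀ n ≥ n₀,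
      ∃ (C : NCircuit n) (α : List Bool), C.size ≤ c * (n * σ n ^ k) ∧ C.Computes L.1 ∧
        α.length ≤ a n ∧ ∀ (i : ℕ) (hi : i < C.desc.length),
        (bits (List.replicate n (), i, α) ∈ W.1.1 ↔ C.desc[i] = false) ∧
        (bits (List.replicate n (), i, α) ∈ W.1.2 ↔ C.desc[i] = true) := by
    rintro ⟨L, hL⟩
    obtain ⟨c, W0, W1, hW0, hW1, n₀, h⟩ := hcon L hL
    exact ⟨c, ⟨(W0, W1), hW0, hW1⟩, n₀, h⟩
  choose c W n₀ hall using hall
  set b := k + 3 with hb
  set r := k + t + 1 with hr
  let F : {L // InCoNP L} → {L // InCoNP L} := fun L =>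
    ⟨joinPair e (W L).1.1 (W L).1.2, inCoNP_joinPair e (W L).2.1 (W L).2.2⟩
  let L : ℕ → {L // InCoNP L} := fun j => F^[j] ⟨diagN (b + k + 5), inCoNP_diagN _⟩
  have hL0 : (L 0).1 = diagN (b + k + 5) := rfl
  have hLs : ∀ j, (L (j + 1)).1 = joinPair e (W (L j)).1.1 (W (L j)).1.2 := by
    intro j
    simp only [L, Function.iterate_succ_apply']
    rfl
  obtain ⟨N₁, hN₁⟩ := Filter.eventually_atTop.1 ha
  set c' := ∑ j ∈ Finset.range (r + 1), c (L j) with hc'
  set N := ∑ j ∈ Finset.range (r + 1), n₀ (L j) with hN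
  have hcj : ∀ j ≤ r, c (L j) ≤ c' := fun j hj =>
    Finset.single_le_sum (f := fun j => c (L j)) (fun _ _ => Nat.zero_le _)
      (Finset.mem_range.2 (by omega))
  have hNj : ∀ j ≤ r, n₀ (L j) ≤ N := fun j hj =>
    Finset.single_le_sum (f := fun j => n₀ (L j)) (fun _ _ => Nat.zero_le _)
      (Finset.mem_range.2 (by omega))
  set Q := (c' + 1) * (8 * k + 36) * (4 * e ^ r) with hQ
  set K := 16 * (Q * 8 ^ r) + 400 * r + 8 * b + 100 with hK
  obtain ⟨n, hn, hnN, hsig⟩ := exists_lens σ hσ t e r K (N + N₁ + c' + 8 * k + 20 * r + 40)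
    hσ1 hσ2
  set ℓ := Nat.log 2 n + 1 with hℓ
  have hℓ1 : 1 ≤ ℓ := by omega
  have hn0 : lens σ n 0 = n := rfl
  have hnℓ : n < 2 ^ ℓ := Nat.lt_pow_succ_log_self (by norm_num) n
  have hnj : ∀ j ≤ r, lens σ n j < 2 ^ ℓ := fun j hj => lt_of_le_of_lt (hn.le j hj) hnℓ
  have hKℓ : K * ℓ ≤ n := hn.lg 0 (Nat.zero_le _)
  have hdata : ∀ j, j ≤ r → ∃ D al : List Bool,
      (∀ y : List Bool, y.length = lens σ n j →
        ((∃ w, evalN D y w = true) ↔ y ∈ (L j).1)) ∧
      (∀ y w, evalN D y w = true → w.length ≤ n ^ (k + 2)) ∧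
      al.length ≤ a (lens σ n j) ∧
      (∀ (i : ℕ) (hi : i < D.length),
        (bits (List.replicate (lens σ n j) (), i, al) ∈ (W (L j)).1.1 ↔ D[i] = false) ∧
        (bits (List.replicate (lens σ n j) (), i, al) ∈ (W (L j)).1.2 ↔ D[i] = true)) ∧
      D.length ≤ (c' + 1) * (8 * k + 36) * (lens σ n j * σ (lens σ n j) ^ k * ℓ) := by
    intro j hj
    obtain ⟨C, al, hC1, hC2, hC3, hC4⟩ := hall (L j) (lens σ n j)
      ((hNj j hj).trans (by have := hn.ge j hj; omega))
    have h2 : C.size ≤ c' * (lens σ n j * σ (lens σ n j) ^ k) :=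
      hC1.trans (Nat.mul_le_mul_right _ (hcj j hj))
    refine ⟨C.desc, al, fun y hy => ?_, fun y w hw => ?_, hC3, hC4, ?_⟩
    · rw [exists_evalN]
      exact hC2 y hy
    · calc w.length ≤ C.size := length_of_evalN C y w hw
        _ ≤ c' * (lens σ n j * σ (lens σ n j) ^ k) := h2
        _ ≤ n * (n * n ^ k) := by
            refine Nat.mul_le_mul (by omega) (Nat.mul_le_mul (hn.le j hj) ?_)
            exact Nat.pow_le_pow_left ((hn.sle j hj).trans (hn.le j hj)) k
        _ = n ^ (k + 2) := by ring
    · have hm1 : 1 ≤ lens σ n j := by have := hn.ge j hj; omega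
      have hs1 : 1 ≤ σ (lens σ n j) := by have := hsig j hj; omega
      have hms : 1 ≤ lens σ n j * σ (lens σ n j) ^ k :=
        Nat.mul_pos hm1 (Nat.pow_pos hs1)
      have h3 : C.size + 1 ≤ (c' + 1) * (lens σ n j * σ (lens σ n j) ^ k) := by
        rw [add_mul, one_mul]
        omega
      have h5 : lens σ n j + C.size ≤ 2 ^ ((k + 2) * ℓ) := by
        calc lens σ n j + C.size ≤ n + c' * (n * n ^ k) := by
              refine Nat.add_le_add (hn.le j hj) (h2.trans (Nat.mul_le_mul_left _ ?_))
              exact Nat.mul_le_mul (hn.le j hj)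
                (Nat.pow_le_pow_left ((hn.sle j hj).trans (hn.le j hj)) k)
          _ ≤ n * n ^ k + c' * (n * n ^ k) := by
              refine Nat.add_le_add_right (Nat.le_mul_of_pos_right _ (Nat.pow_pos ?_)) _
              omega
          _ = (c' + 1) * (n * n ^ k) := by ring
          _ ≤ n * (n * n ^ k) := Nat.mul_le_mul_right _ (by omega)
          _ = n ^ (k + 2) := by ring
          _ ≤ (2 ^ ℓ) ^ (k + 2) := Nat.pow_le_pow_left hnℓ.le _
          _ = _ := by rw [← pow_mul, mul_comm]
      calc C.desc.length ≤ (C.size + 1) * (8 * ((k + 2) * ℓ) + 20) := length_descN C h5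
        _ ≤ ((c' + 1) * (lens σ n j * σ (lens σ n j) ^ k)) * ((8 * k + 36) * ℓ) := by
          refine Nat.mul_le_mul h3 ?_
          nlinarith
        _ = _ := by ring
  choose! D al hD hG hal hW hDlen using hdata
  have hDb : ∀ j ≤ r, (D j).length ≤ n ^ b := by
    intro j hj
    calc (D j).length ≤ (c' + 1) * (8 * k + 36) * (lens σ n j * σ (lens σ n j) ^ k * ℓ) :=
          hDlen j hj
      _ ≤ (c' + 1) * (8 * k + 36) * (n * n ^ k * ℓ) := by
          refine Nat.mul_le_mul_left _ (Nat.mul_le_mul_right _ (Nat.mul_le_mul (hn.le j hj) ?_))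
          exact Nat.pow_le_pow_left ((hn.sle j hj).trans (hn.le j hj)) k
      _ = (c' + 1) * (((8 * k + 36) * ℓ) * (n * n ^ k)) := by ring
      _ ≤ n * (n * (n * n ^ k)) := by
          refine Nat.mul_le_mul (by omega) (Nat.mul_le_mul_right _ ?_)
          exact (Nat.mul_le_mul_right ℓ (by omega)).trans hKℓ
      _ = n ^ b := by rw [hb]; ring
  have hsize : ∀ j ≤ r, (lens σ n j).size ≤ ℓ := fun j hj => Nat.size_le.2 (hnj j hj)
  have hsizeD : ∀ j ≤ r, ∀ i ≤ (D j).length, i.size ≤ b * ℓ + 1 := by
    intro j hj i hi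
    refine Nat.size_le.2 ?_
    calc i ≤ n ^ b := hi.trans (hDb j hj)
      _ ≤ (2 ^ ℓ) ^ b := Nat.pow_le_pow_left hnℓ.le _
      _ = 2 ^ (b * ℓ) := by rw [← pow_mul, mul_comm]
      _ < 2 ^ (b * ℓ + 1) := Nat.pow_lt_pow_right (by norm_num) (by omega)
  have hal8 : ∀ j < r, 8 * (al j).length ≤ lens σ n (j + 1) := by
    intro j hj
    have h1 := hN₁ (lens σ n j) (by have := hn.ge j hj.le; omega)
    have h2 : a (lens σ n j) ≤ lens σ n j / σ (lens σ n j) :=
      (Nat.le_div_iff_mul_le (by have := hsig j hj.le; omega)).2 h1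
    have h3 := hal j hj.le
    change 8 * (al j).length ≤ 8 * (lens σ n j / σ (lens σ n j))
    omega
  have hKj : ∀ j ≤ r, (8 * b + 100) * ℓ ≤ lens σ n j := fun j hj =>
    (Nat.mul_le_mul_right _ (by omega)).trans (hn.lg j hj)
  have hquery : ∀ j < r, ∀ i < (D j).length, ∀ b,
      (query (lens σ n j) i (b :: al j)).length + 1 ≤ lens σ n (j + 1) := by
    intro j hj i hi bb
    rw [length_query, List.length_cons]
    have h1 := hal8 j hj
    have h2 := hsize j hj.le
    have h3 := hsizeD j hj.le i hi.le
    have h4 := hKj (j + 1) hj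
    change 2 * (lens σ n j).size + 2 * i.size + ((al j).length + 1) + 2 + 1 ≤ lens σ n (j + 1)
    nlinarith
  refine contraN (b + k + 5) r (n ^ b) (n ^ (k + 2)) (fun j => lens σ n j)
    (fun j => (L j).1) D al hL0 hD hG ?_ hDb hquery ?_ ?_
  · intro j hj i hi bb
    simp only [hLs j]
    exact mem_joinPair hi (hW j hj.le i hi).1 (hW j hj.le i hi).2 bb (hquery j hj i hi bb)
      (hn.pow j hj)
  · -- the code fits
    have hQ1 : 0 < Q * 8 ^ r := by
      have h1 := hn.lgs
      have h2 : e ^ r ≠ 0 := by
        intro h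
        rw [h] at h1
        omega
      rw [hQ]
      positivity
    have hKpos : 0 < K := by omega
    have hentry : ∀ E ∈ (List.range r).map (entry (fun j => lens σ n j) D al),
        sz E ≤ 32 * n / K := by
      intro E hE
      obtain ⟨j, hj, rfl⟩ := List.mem_map.1 hE
      rw [List.mem_range] at hj
      rw [Nat.le_div_iff_mul_le hKpos]
      have h0 : sz (entry (fun j => lens σ n j) D al j) ≤ 4 * lens σ n (j + 1) := by
        unfold entry
        simp only [sz_pair, sz_replicate_unit]
        have h1 := hal8 j hj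
        have h3 := sz_listBool_le (al j)
        have h4 := sz_nat_le (lens σ n j)
        have h5 := hsize j hj.le
        have h6 := sz_nat_le ((D j).length)
        have h7 := hsizeD j hj.le _ le_rfl
        have h8 := hKj (j + 1) hj
        nlinarith
      have h2 := hn.dec j hj
      have h3 := hn.le j hj.le
      have h4 := hsig j hj.le
      calc _ ≤ 4 * lens σ n (j + 1) * K := Nat.mul_le_mul_right _ h0
        _ ≤ 4 * lens σ n (j + 1) * σ (lens σ n j) := Nat.mul_le_mul_left _ h4
        _ = 4 * (lens σ n (j + 1) * σ (lens σ n j)) := by ring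
        _ ≤ 4 * (8 * n) := Nat.mul_le_mul_left _ (h2.trans (Nat.mul_le_mul_left _ h3))
        _ = 32 * n := by ring
    have h1 := sz_le_length_mul _ _ hentry
    rw [List.length_map, List.length_range] at h1
    have h2 := sz_listBool_le (D r)
    have h3 : (D r).length * 16 ≤ n := by
      have e1 : (D r).length ≤ Q * (lens σ n r * σ (lens σ n r) ^ (k + t)) := by
        calc (D r).length ≤ (c' + 1) * (8 * k + 36) *
              (lens σ n r * σ (lens σ n r) ^ k * ℓ) := hDlen r le_rfl
          _ ≤ (c' + 1) * (8 * k + 36) * (lens σ n r * σ (lens σ n r) ^ k *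
              (4 * e ^ r * σ (lens σ n r) ^ t)) :=
            Nat.mul_le_mul_left _ (Nat.mul_le_mul_left _ hn.lgs)
          _ = _ := by rw [hQ, pow_add]; ring
      have e2 : (D r).length * K ≤ (Q * 8 ^ r) * n := by
        calc (D r).length * K ≤ Q * (lens σ n r * σ (lens σ n r) ^ (k + t)) *
              σ (lens σ n r) := Nat.mul_le_mul e1 (hsig r le_rfl)
          _ = Q * (lens σ n r * σ (lens σ n r) ^ r) := by rw [hr, pow_succ]; ring
          _ ≤ Q * (8 ^ r * n) := Nat.mul_le_mul_left _ hn.last
          _ = _ := by ring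
      have e3 : (Q * 8 ^ r) * ((D r).length * 16) ≤ (Q * 8 ^ r) * n := by
        calc _ = (D r).length * (16 * (Q * 8 ^ r)) := by ring
          _ ≤ (D r).length * K := Nat.mul_le_mul_left _ (by omega)
          _ ≤ _ := e2
      exact Nat.le_of_mul_le_mul_left e3 hQ1
    have h4 : 400 * r * (32 * n / K) ≤ 32 * n := by
      calc _ ≤ K * (32 * n / K) := Nat.mul_le_mul_right _ (by omega)
        _ ≤ 32 * n := Nat.mul_div_le _ _
    have h5 : 400 * r + 100 ≤ n := by
      have : K ≤ K * ℓ := Nat.le_mul_of_pos_right _ hℓ1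
      omega
    rw [sz_pair]
    change _ ≤ n
    have h6 : r * (32 * n / K + 1) = r * (32 * n / K) + r := by ring
    have h7 : 400 * (r * (32 * n / K)) ≤ 32 * n := by
      calc _ = 400 * r * (32 * n / K) := by ring
        _ ≤ _ := h4
    omega
  · -- the certificate is short
    have h20 : 20 * (r + 1) ≤ n := by omega
    have hn2 : 2 ≤ n := by omega
    have e1 : n ^ b + 1 ≤ n ^ (b + 1) := by
      have h1 : 1 ≤ n ^ b := Nat.one_le_pow _ _ (by omega)
      have h2 : n ^ (b + 1) = n ^ b * n := pow_succ n b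
      rw [h2]
      nlinarith
    have e2 : n ^ (k + 2) + 1 ≤ n ^ (k + 3) := by
      have : 1 ≤ n ^ (k + 2) := Nat.one_le_pow _ _ (by omega)
      rw [pow_succ n (k + 2)]
      nlinarith
    change 20 * ((r + 1) * ((n ^ b + 1) * (n ^ (k + 2) + 1))) ≤ n ^ (b + k + 5)
    calc 20 * ((r + 1) * ((n ^ b + 1) * (n ^ (k + 2) + 1)))
        = (20 * (r + 1)) * ((n ^ b + 1) * (n ^ (k + 2) + 1)) := by ring
      _ ≤ n * (n ^ (b + 1) * n ^ (k + 3)) := Nat.mul_le_mul h20 (Nat.mul_le_mul e1 e2)
      _ = n ^ (b + k + 5) := by ring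

end Pool.Agent.H670NU
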