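import Pool.Agent.H670NU.NDefs
import Pool.Agent.H670NU.NPair

/-!
# Lower bounds against nondeterministic circuits described by parallel `NP` queries
-/

namespace Pool.Agent.H670NU

open Pool.Agent.NPC Pool.Agent.NPC.H559U Filter

theorem mono_pair {a a' s s' : ℕ → ℕ} {L : Set (List Bool)}
    (ha : ∀ᶠ n in atTop, a n ≤ a' n) (hs : ∀ᶠ n in atTop, s n ≤ s' n)
    (h : HasPairNCircuits a s L) : HasPairNCircuits a' s' L := by
  obtain ⟨W0, W1, hW0, hW1, n₀, h⟩ := h
  obtain ⟨N, hN⟩ := eventually_atTop.1 (ha.and hs)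
  refine ⟨W0, W1, hW0, hW1, max n₀ N, fun n hn => ?_⟩
  obtain ⟨C, α, h1, h2, h3, h4⟩ := h n ((le_max_left _ _).trans hn)
  obtain ⟨h5, h6⟩ := hN n ((le_max_right _ _).trans hn)
  exact ⟨C, α, h1.trans h6, h2, h3.trans h5, h4⟩

theorem generalN (σ : ℕ → ℕ) (hσ : Monotone σ) (t e : ℕ)
    (hσ1 : ∀ᶠ n in atTop, Nat.log 2 n ≤ σ n ^ t)
    (hσ2 : ∀ᶠ n in atTop, σ n ^ e * n ≤ n ^ e) (k : ℕ) :
    ∃ L, InCoNP L ∧ ∀ a : ℕ → ℕ, (∀ᶠ n in atTop, a n * σ n ≤ n) → ∀ c,
      ¬ HasPairNCircuits a (fun n => c * (n * σ n ^ k)) L := by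
  obtain ⟨L, hL, h⟩ := mainN σ hσ t e hσ1 hσ2 (fun n => n / σ n)
    (Eventually.of_forall fun n => Nat.div_mul_le_self _ _) k
  refine ⟨L, hL, fun a ha c hc => h c (mono_pair ?_ (Eventually.of_forall fun _ => le_rfl) hc)⟩
  filter_upwards [ha, sigma_large hσ1 1] with n h3 h7
  exact (Nat.le_div_iff_mul_le h7).2 h3

theorem getD_map_not (l : List Bool) (i : ℕ) (hi : i < l.length) :
    (l.map fun x => !x).getD i false = true ↔ l[i] = false := by
  rw [List.getD_eq_getElem _ _ (by simpa using hi)]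
  simp

theorem main_parN (σ : ℕ → ℕ) (hσ : Monotone σ) (t e : ℕ)
    (hσ1 : ∀ᶠ n in atTop, Nat.log 2 n ≤ σ n ^ t)
    (hσ2 : ∀ᶠ n in atTop, σ n ^ e * n ≤ n ^ e) (k : ℕ) :
    ∃ L, InCoNP L ∧ ∀ a : ℕ → ℕ, (∀ᶠ n in atTop, a n * σ n ≤ n) → ∀ c,
      ¬ HasParallelNPNCircuits a (fun n => c * (n * σ n ^ k)) L := by
  have he : 1 ≤ e := by
    by_contra hcon
    have he0 : e = 0 := by omega
    subst he0
    obtain ⟨n, h1, h2⟩ := (hσ2.and (eventually_ge_atTop 2)).exists
    simp at h1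
    omega
  obtain ⟨L, hL, hmain⟩ := generalN (fun n => σ n / 2)
    (fun m n hmn => Nat.div_le_div_right (hσ hmn)) (2 * t) e
    (by
      filter_upwards [hσ1, sigma_large hσ1 6] with n h1 h2
      refine h1.trans ?_
      rw [mul_comm 2 t, mul_comm t 2, pow_mul]
      refine Nat.pow_le_pow_left ?_ t
      have h3 : 3 ≤ σ n / 2 := by omega
      have h4 : σ n ≤ 3 * (σ n / 2) := by omega
      nlinarith)
    (by
      filter_upwards [hσ2] with n h1
      refine le_trans (Nat.mul_le_mul_right _ (Nat.pow_le_pow_left (Nat.div_le_self _ _) e)) h1)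
    (2 * k)
  refine ⟨L, hL, fun a ha c hc => ?_⟩
  obtain ⟨O, q, e', hO, hq, he', n₀, h⟩ := hc
  have hq' := poly_of_polyTime hq
  have he'' := poly_of_polyTime he'
  have he0 : NPC.Poly (fun x => (e' x).map fun b => !b) :=
    NPC.Poly.map (F := fun _ b => !b) he'' (NPC.Poly.not (NPC.Poly.snd NPC.Poly.id))
  obtain ⟨g, p, hg, hgO⟩ := InNP.exists_poly hO
  obtain ⟨P, hP⟩ := mem_census hgO hq' e'
  obtain ⟨P0, hP0⟩ := mem_census hgO hq' (fun x => (e' x).map fun b => !b)
  obtain ⟨r, hr⟩ := hq'.sz_le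
  -- the number of queries is polynomially bounded
  obtain ⟨M, hM⟩ : ∃ M : ℕ, ∀ n : ℕ, 2 ≤ n → r.eval (4 * (6 * n + 6) + 1) ≤ n ^ M := by
    obtain ⟨M, hM⟩ := eval_le_pow (r.comp (Polynomial.C 4 * (Polynomial.C 6 * Polynomial.X +
      Polynomial.C 6) + Polynomial.C 1))
    refine ⟨M, fun n hn => ?_⟩
    simpa using hM n hn
  set K := 2 * M + 3 with hK
  refine hmain (fun n => a n + K * (Nat.log 2 n + 1)) ?_ c ?_
  · filter_upwards [ha, hσ2, log_pow_le K e] with n h1 h2 h3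
    have h4 : K * (Nat.log 2 n + 1) * σ n ≤ n := by
      refine le_of_pow_le_pow_left₀ (n := e) (by omega) (Nat.zero_le _) ?_
      rw [mul_pow]
      calc (K * (Nat.log 2 n + 1)) ^ e * σ n ^ e ≤ n * σ n ^ e := Nat.mul_le_mul_right _ h3
        _ = σ n ^ e * n := mul_comm _ _
        _ ≤ n ^ e := h2
    have h5 : 2 * (σ n / 2) ≤ σ n := Nat.mul_div_le _ _
    have h6 : 2 * ((a n + K * (Nat.log 2 n + 1)) * (σ n / 2)) ≤ 2 * n := by
      calc 2 * ((a n + K * (Nat.log 2 n + 1)) * (σ n / 2)) =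
            (a n + K * (Nat.log 2 n + 1)) * (2 * (σ n / 2)) := by ring
        _ ≤ (a n + K * (Nat.log 2 n + 1)) * σ n := Nat.mul_le_mul_left _ h5
        _ = a n * σ n + K * (Nat.log 2 n + 1) * σ n := by ring
        _ ≤ 2 * n := by omega
    omega
  · obtain ⟨N, hN⟩ := eventually_atTop.1 (ha.and ((sigma_large hσ1 6).and (eventually_ge_atTop 2)))
    refine ⟨census g p q (fun x => (e' x).map fun b => !b) P0, census g p q e' P,
      inNP_census hg p hq' he0 P0, inNP_census hg p hq' he'' P, max n₀ N, fun n hn => ?_⟩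
    obtain ⟨C, α, qs, ans, h1, h2, h3, h4, h5, h6⟩ := h n ((le_max_left _ _).trans hn)
    obtain ⟨g1, g2, g3⟩ := hN n ((le_max_right _ _).trans hn)
    refine ⟨C, pairBits (cnt ans).bits α, h1.trans ?_, h2, ?_, fun i hi => ⟨?_, ?_⟩⟩
    · refine Nat.mul_le_mul_left _ (Nat.mul_le_mul_left _ ?_)
      rw [pow_mul]
      refine Nat.pow_le_pow_left ?_ k
      have e3 : 3 ≤ σ n / 2 := by omega
      have e4 : σ n ≤ 3 * (σ n / 2) := by omega
      show σ n ≤ (σ n / 2) ^ 2
      nlinarith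
    · rw [length_pairBits]
      have e1 : cnt ans ≤ n ^ M := by
        have e2 : cnt ans ≤ ans.length := List.length_filter_le _ _
        have e3 := length_of_forall₂ h5
        have e4 := length_lt_sz qs
        have e5 := hr (bits (List.replicate n (), α))
        rw [h4] at e5
        have e6 := length_lt_sz (bits qs)
        rw [bits_length] at e6
        have e7 : sz (bits (List.replicate n (), α)) ≤ 4 * (6 * n + 6) + 1 := by
          refine (sz_listBool_le _).trans ?_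
          rw [bits_length, sz_pair, sz_replicate_unit]
          have e8 := sz_listBool_le α
          have e9 : a n ≤ n := by
            have : a n * 1 ≤ a n * σ n := Nat.mul_le_mul_left _ (by omega)
            omega
          omega
        have e8 := e5.trans ((eval_mono r e7).trans (hM n g3))
        omega
      have e2 : (cnt ans).bits.length ≤ M * (Nat.log 2 n + 1) + 1 := by
        rw [Nat.size_eq_bits_len, Nat.size_le]
        have e3 : n < 2 ^ (Nat.log 2 n + 1) := Nat.lt_pow_succ_log_self (by norm_num) n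
        calc cnt ans ≤ n ^ M := e1
          _ ≤ (2 ^ (Nat.log 2 n + 1)) ^ M := Nat.pow_le_pow_left e3.le M
          _ = 2 ^ (M * (Nat.log 2 n + 1)) := by rw [← pow_mul, mul_comm]
          _ < 2 ^ (M * (Nat.log 2 n + 1) + 1) := Nat.pow_lt_pow_right (by norm_num) (by omega)
      have e3 : 2 * (M * (Nat.log 2 n + 1) + 1) + 1 ≤ K * (Nat.log 2 n + 1) := by
        rw [hK]
        nlinarith [Nat.zero_le (Nat.log 2 n)]
      show 2 * (cnt ans).bits.length + α.length + 1 ≤ a n + K * (Nat.log 2 n + 1)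
      omega
    · rw [hP0 (List.replicate n ()) i α qs ans h4 h5, h6]
      exact getD_map_not _ _ hi
    · rw [hP (List.replicate n ()) i α qs ans h4 h5, h6, List.getD_eq_getElem _ _ hi]

end Pool.Agent.H670NU
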